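import Pool.Agent.Q83.FF.Stm

/-!
# Job FF-FLOW: the flow of the roots under the heat semigroup
-/

set_option autoImplicit false

namespace Pool.Agent.Q272.FF

open Polynomial Finset Filter Topology
open Pool.Agent.Q83.FF

theorem eval_dd {d : ℕ} (c : Fin d → ℝ) (hc : Function.Injective c) (i : Fin d) :
    (derivative (derivative (P c))).eval (c i)
      = 2 * ((∏ j ∈ univ.erase i, (c i - c j)) * J c i) := by
  have h1 : P c = (X - C (c i)) * ∏ j ∈ univ.erase i, (X - C (c j)) := by
    unfold P
    rw [Finset.mul_prod_erase univ (fun j => (X - C (c j))) (mem_univ i)]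
  set Q : ℝ[X] := ∏ j ∈ univ.erase i, (X - C (c j)) with hQ
  have h2 : derivative (derivative (P c))
      = derivative Q + derivative Q + (X - C (c i)) * derivative (derivative Q) := by
    rw [h1, derivative_mul, derivative_add, derivative_mul, derivative_mul]
    simp only [derivative_sub, derivative_X, derivative_C, sub_zero, derivative_one, zero_mul,
      one_mul, zero_add]
    ring
  have h3 : (derivative Q).eval (c i) = (∏ j ∈ univ.erase i, (c i - c j)) * J c i := by
    rw [hQ, derivative_prod_finset, eval_finsetSum]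
    unfold J
    rw [Finset.mul_sum]
    refine Finset.sum_congr rfl fun j hj => ?_
    rw [eval_mul, eval_prod]
    simp only [derivative_sub, derivative_X, derivative_C, sub_zero, eval_one, mul_one, eval_sub,
      eval_X, eval_C]
    have hne : c i - c j ≠ 0 := by
      have : j ≠ i := (mem_erase.1 hj).1
      exact sub_ne_zero.2 fun e => this (hc e).symm
    rw [← Finset.mul_prod_erase (univ.erase i) (fun k => c i - c k) hj]
    field_simp
  rw [h2, eval_add, eval_add, eval_mul, h3]
  simp
  ring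

theorem coeff_heat (d : ℕ) (s : ℝ) (p : ℝ[X]) (j : ℕ) :
    (heat d s p).coeff j = ∑ k ∈ range (d + 1),
      ((-(s / (2 * ((d : ℝ) - 1)))) ^ k / (Nat.factorial k : ℝ)) * (derivative^[2 * k] p).coeff j := by
  unfold heat
  rw [finsetSum_coeff]
  refine Finset.sum_congr rfl fun k _ => ?_
  rw [coeff_C_mul]

theorem dd_heat (d : ℕ) (s : ℝ) (p : ℝ[X]) :
    derivative (derivative (heat d s p)) = ∑ k ∈ range (d + 1),
      C ((-(s / (2 * ((d : ℝ) - 1)))) ^ k / (Nat.factorial k : ℝ))
        * derivative^[2 * (k + 1)] p := by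
  unfold heat
  rw [derivative_sum, derivative_sum]
  refine Finset.sum_congr rfl fun k _ => ?_
  rw [derivative_C_mul, derivative_C_mul]
  have : 2 * (k + 1) = (2 * k + 1) + 1 := by ring
  rw [this, Function.iterate_succ_apply', Function.iterate_succ_apply']

theorem hasDeriv_coeff_heat (d : ℕ) (p : ℝ[X]) (hp : p.natDegree ≤ d) (s : ℝ) (j : ℕ) :
    HasDerivAt (fun u => (heat d u p).coeff j)
      ((C (-(1 / (2 * ((d : ℝ) - 1)))) * derivative (derivative (heat d s p))).coeff j) s := by
  have h0 : (C (-(1 / (2 * ((d : ℝ) - 1)))) * derivative (derivative (heat d s p))).coeff j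
      = ∑ k ∈ range (d + 1),
        (((k : ℝ) * (-(s / (2 * ((d : ℝ) - 1)))) ^ (k - 1) * (-(1 / (2 * ((d : ℝ) - 1)))))
          / (Nat.factorial k : ℝ)) * (derivative^[2 * k] p).coeff j := by
    rw [coeff_C_mul, dd_heat, finsetSum_coeff, Finset.sum_range_succ, Finset.sum_range_succ']
    have hz : derivative^[2 * (d + 1)] p = 0 :=
      iterate_derivative_eq_zero (by omega)
    rw [hz]
    simp only [mul_zero, coeff_zero, add_zero, Nat.cast_zero, zero_mul, zero_div]
    rw [Finset.mul_sum]
    refine Finset.sum_congr rfl fun k _ => ?_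
    rw [coeff_C_mul, Nat.add_sub_cancel, Nat.factorial_succ]
    push_cast
    have h1 : ((k : ℝ) + 1) ≠ 0 := by positivity
    have h2 : (Nat.factorial k : ℝ) ≠ 0 := by positivity
    field_simp
  rw [h0]
  have h1 : (fun u => (heat d u p).coeff j) = fun u => ∑ k ∈ range (d + 1),
      ((-(u / (2 * ((d : ℝ) - 1)))) ^ k / (Nat.factorial k : ℝ)) * (derivative^[2 * k] p).coeff j := by
    funext u
    exact coeff_heat d u p j
  rw [h1]
  refine HasDerivAt.fun_sum fun k _ => ?_
  refine HasDerivAt.mul_const ?_ _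
  refine HasDerivAt.div_const ?_ _
  have h2 : HasDerivAt (fun u : ℝ => -(u / (2 * ((d : ℝ) - 1)))) (-(1 / (2 * ((d : ℝ) - 1)))) s :=
    ((hasDerivAt_id s).div_const _).neg
  exact h2.fun_pow k

theorem t_flow (h_heatrr : S_heatrr) (h_uniq : S_uniq) (h_heatsimple : S_heatsimple)
    (h_heatalg : S_heatalg) (h_cont : S_cont) (h_rootderiv : S_rootderiv) : S_flow := by
  intro d a hd ha hinj
  obtain ⟨hu1, hu2, hu3, hu4, hu5, hu6⟩ := h_uniq
  obtain ⟨hh1, hh2, hh3, hh4, hh5, hh6, hh7⟩ := h_heatalg
  have hrt : ∀ s : ℝ, 0 ≤ s → Monotone (fl a s) ∧ Function.Injective (fl a s) ∧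
      P (fl a s) = heat d s (P a) := by
    intro s hs
    obtain ⟨c, hcm, hcP⟩ := h_heatrr d a s hd hs
    obtain ⟨h1, h2, h3⟩ := hu5 d (heat d s (P a)) c hcm hcP
    refine ⟨h2, ?_, h3⟩
    exact h_heatsimple d a (fl a s) s hd hs hinj h3
  refine ⟨?_, hrt, ?_⟩
  · exact (hu5 d (heat d 0 (P a)) a ha (hh2 d (P a)).symm).1
  intro s hs i
  have hdeg : (P a).natDegree ≤ d := (hu3 d a).2.le
  have hd1 : (0 : ℝ) < (d : ℝ) - 1 := by
    have : (2 : ℝ) ≤ d := by exact_mod_cast hd
    linarith
  have hcoef : ∀ j, HasDerivWithinAt (fun u => (P (fl a u)).coeff j)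
      ((C (-(1 / (2 * ((d : ℝ) - 1)))) * derivative (derivative (heat d s (P a)))).coeff j)
      (Set.Ici 0) s := by
    intro j
    have h1 := (hasDeriv_coeff_heat d (P a) hdeg s j).hasDerivWithinAt (s := Set.Ici (0 : ℝ))
    refine h1.congr ?_ ?_
    · intro u hu
      rw [(hrt u hu).2.2]
    · rw [(hrt s hs).2.2]
  have hcw : ContinuousWithinAt (fun u => fl a u) (Set.Ici 0) s := by
    refine h_cont ℝ (𝓝[Set.Ici 0] s) d (fun u => fl a u) (fl a s) ?_ (hrt s hs).1 ?_
    · filter_upwards [self_mem_nhdsWithin] with u hu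
      exact (hrt u hu).1
    · intro j
      exact (hcoef j).continuousWithinAt
  have hG : (C (-(1 / (2 * ((d : ℝ) - 1)))) * derivative (derivative (heat d s (P a)))).natDegree
      ≤ d := by
    refine (natDegree_C_mul_le _ _).trans ?_
    refine (natDegree_derivative_le _).trans ?_
    refine (Nat.sub_le _ _).trans ?_
    refine (natDegree_derivative_le _).trans ?_
    refine (Nat.sub_le _ _).trans ?_
    exact (hh6 d s (P a)).trans hdeg
  have hmain := h_rootderiv d (Set.Ici 0) s (fun u => fl a u)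
    (C (-(1 / (2 * ((d : ℝ) - 1)))) * derivative (derivative (heat d s (P a)))) hs hcw
    (hrt s hs).2.1 hG (fun j _ => hcoef j) i
  have hval : (-((C (-(1 / (2 * ((d : ℝ) - 1)))) * derivative (derivative (heat d s (P a)))).eval
      (fl a s i)) / ∏ j ∈ univ.erase i, (fl a s i - fl a s j)) = J (fl a s) i / ((d : ℝ) - 1) := by
    rw [eval_mul, eval_C, ← (hrt s hs).2.2, eval_dd (fl a s) (hrt s hs).2.1 i]
    have hprod : ∏ j ∈ univ.erase i, (fl a s i - fl a s j) ≠ 0 := by
      rw [Finset.prod_ne_zero_iff]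
      intro j hj
      have : j ≠ i := (mem_erase.1 hj).1
      exact sub_ne_zero.2 fun e => this ((hrt s hs).2.1 e).symm
    have hd1' : (d : ℝ) - 1 ≠ 0 := hd1.ne'
    field_simp
  rw [hval] at hmain
  exact hmain

end Pool.Agent.Q272.FF
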