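import Pool.Agent.Q83.FF.Stm

/-!
# Job FF-SUB: subadditivity of the sum of the largest roots
-/

set_option autoImplicit false

namespace Pool.Agent.Q272.FF

open Polynomial Finset Filter Topology
open Pool.Agent.Q83.FF

theorem t_sub (h_om1 : S_om1) (h_om2 : S_om2) (h_dens : S_dens) (h_subgen : S_subgen) : S_sub := by
  intro d k a b c a' b' c' c'' hc hc' hc'' hP hP' hP''
  have ec : c = Om a b := (h_om1 d a b).2.2 c hc hP
  have ec' : c' = Om a' b' := (h_om1 d a' b').2.2 c' hc' hP'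
  have ec'' : c'' = Om (a + a') (b + b') := (h_om1 d (a + a') (b + b')).2.2 c'' hc'' hP''
  subst ec ec' ec''
  have hsel : ∀ n : ℕ, ∃ w : (Fin d → ℝ) × (Fin d → ℝ),
      (∀ i, |w.1 i - a i| < 1 / ((n : ℝ) + 1)) ∧ (∀ i, |w.2 i - b i| < 1 / ((n : ℝ) + 1)) ∧
      ∀ c : Fin d → ℝ, Monotone c → P c = conv d (P w.1) (P w.2) →
        ∀ S T : Finset (Fin d), S.card = T.card → ∑ i ∈ S, c i = ∑ i ∈ T, c i → S = T := by
    intro n
    obtain ⟨x, y, h1, h2, h3⟩ := h_dens d a b (1 / ((n : ℝ) + 1)) (by positivity)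
    exact ⟨(x, y), h1, h2, h3⟩
  choose w hw1 hw2 hw3 using hsel
  have hlim : Tendsto (fun n : ℕ => 1 / ((n : ℝ) + 1)) atTop (𝓝 0) :=
    tendsto_one_div_add_atTop_nhds_zero_nat
  have hw1' : Tendsto (fun n => (w n).1) atTop (𝓝 a) := by
    rw [tendsto_pi_nhds]
    intro i
    rw [tendsto_iff_dist_tendsto_zero]
    refine squeeze_zero (fun _ => dist_nonneg) (fun n => ?_) hlim
    rw [Real.dist_eq]
    exact (hw1 n i).le
  have hw2' : Tendsto (fun n => (w n).2) atTop (𝓝 b) := by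
    rw [tendsto_pi_nhds]
    intro i
    rw [tendsto_iff_dist_tendsto_zero]
    refine squeeze_zero (fun _ => dist_nonneg) (fun n => ?_) hlim
    rw [Real.dist_eq]
    exact (hw2 n i).le
  have hF : Continuous (fun v : (Fin d → ℝ) × (Fin d → ℝ) =>
      ∑ i ∈ univ.filter (fun i : Fin d => k ≤ i.val), Om v.1 v.2 i) := by
    refine continuous_finsetSum _ fun i _ => ?_
    exact (continuous_apply i).comp (h_om2 d)
  have hin : ∀ n, ∑ i ∈ univ.filter (fun i : Fin d => k ≤ i.val), Om ((w n).1 + a') ((w n).2 + b') i ≤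
      ∑ i ∈ univ.filter (fun i : Fin d => k ≤ i.val), Om (w n).1 (w n).2 i +
      ∑ i ∈ univ.filter (fun i : Fin d => k ≤ i.val), Om a' b' i := by
    intro n
    refine h_subgen d k (d - k) (w n).1 (w n).2 a' b' rfl ?_
    intro S T hS hT hST
    exact hw3 n (Om (w n).1 (w n).2) (h_om1 d _ _).1 (h_om1 d _ _).2.1 S T (hS.trans hT.symm) hST
  obtain ⟨G, hG⟩ : ∃ G : (Fin d → ℝ) × (Fin d → ℝ) → ℝ, ∀ v, G v =
      ∑ i ∈ univ.filter (fun i : Fin d => k ≤ i.val), Om v.1 v.2 i := ⟨_, fun _ => rfl⟩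
  have hGc : Continuous G := by
    have e : G = fun v : (Fin d → ℝ) × (Fin d → ℝ) =>
      ∑ i ∈ univ.filter (fun i : Fin d => k ≤ i.val), Om v.1 v.2 i := funext hG
    rw [e]
    exact hF
  have hin' : ∀ n, G ((w n).1 + a', (w n).2 + b') ≤ G ((w n).1, (w n).2) + G (a', b') := by
    intro n
    rw [hG, hG, hG]
    exact hin n
  have l1 : Tendsto (fun n => ((w n).1 + a', (w n).2 + b')) atTop (𝓝 (a + a', b + b')) :=
    (hw1'.add_const a').prodMk_nhds (hw2'.add_const b')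
  have l2 : Tendsto (fun n => ((w n).1, (w n).2)) atTop (𝓝 (a, b)) := hw1'.prodMk_nhds hw2'
  have l3 : Tendsto (fun n => G ((w n).1 + a', (w n).2 + b')) atTop (𝓝 (G (a + a', b + b'))) :=
    (hGc.tendsto _).comp l1
  have l4 : Tendsto (fun n => G ((w n).1, (w n).2)) atTop (𝓝 (G (a, b))) :=
    (hGc.tendsto _).comp l2
  have l5 : G (a + a', b + b') ≤ G (a, b) + G (a', b') :=
    le_of_tendsto_of_tendsto' l3 (l4.add_const _) hin'
  rw [hG, hG, hG] at l5
  exact l5

end Pool.Agent.Q272.FF
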