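import Pool.Agent.Q83.FF.Stm

/-!
# Job FF-SUMS: the first two power sums of the roots of the convolution
-/

set_option autoImplicit false

namespace Pool.Agent.Q272.FF

open Polynomial Finset Filter Topology
open Pool.Agent.Q83.FF

theorem P_succ {d : ℕ} (a : Fin (d + 1) → ℝ) :
    P a = (X - C (a 0)) * P (fun i => a (Fin.succ i)) := by
  unfold P
  rw [Fin.prod_univ_succ]

theorem cf0 : ∀ (d : ℕ) (a : Fin d → ℝ), (P a).coeff d = 1 := by
  intro d a
  have hm : ∀ i ∈ (univ : Finset (Fin d)), (X - C (a i) : ℝ[X]).Monic := fun i _ =>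
    monic_X_sub_C (a i)
  have h1 : (P a).Monic := monic_prod_of_monic _ _ hm
  have h2 : (P a).natDegree = d := by
    unfold P
    rw [natDegree_prod_of_monic _ _ hm]
    simp
  have h3 := h1.coeff_natDegree
  rwa [h2] at h3

theorem cf_step (Q : ℝ[X]) (x : ℝ) (n : ℕ) :
    ((X - C x) * Q).coeff (n + 1) = Q.coeff n - x * Q.coeff (n + 1) := by
  rw [sub_mul, coeff_sub, coeff_X_mul, coeff_C_mul]

theorem cf1 : ∀ (d : ℕ) (a : Fin (d + 1) → ℝ), (P a).coeff d = -∑ i, a i := by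
  intro d
  induction d with
  | zero =>
    intro a
    unfold P
    simp
  | succ n ih =>
    intro a
    rw [P_succ, cf_step, ih, cf0, Fin.sum_univ_succ (f := a)]
    ring

theorem cf2 : ∀ (d : ℕ) (a : Fin (d + 2) → ℝ),
    (P a).coeff d = ((∑ i, a i) ^ 2 - ∑ i, a i ^ 2) / 2 := by
  intro d
  induction d with
  | zero =>
    intro a
    rw [coeff_zero_eq_eval_zero]
    unfold P
    have e1 : ∑ i, a i = a 0 + a 1 := Fin.sum_univ_two a
    have e2 : ∑ i, a i ^ 2 = a 0 ^ 2 + a 1 ^ 2 := Fin.sum_univ_two (fun i => a i ^ 2)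
    have e3 : ∏ i, (X - C (a i)) = (X - C (a 0)) * (X - C (a 1)) :=
      Fin.prod_univ_two (fun i => X - C (a i))
    rw [e1, e2, e3]
    simp only [eval_mul, eval_sub, eval_X, eval_C]
    ring
  | succ n ih =>
    intro a
    rw [P_succ, cf_step, ih, cf1, Fin.sum_univ_succ (f := a),
      Fin.sum_univ_succ (f := fun i => a i ^ 2)]
    ring

theorem conv_coeff (d i : ℕ) (hi : i ≤ d) (p q : ℝ[X]) :
    (conv d p q).coeff (d - i) = (-1 : ℝ) ^ i * ∑ jk ∈ antidiagonal i,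
    ((Nat.factorial (d - jk.1) : ℝ) * (Nat.factorial (d - jk.2) : ℝ))
      / ((Nat.factorial d : ℝ) * (Nat.factorial (d - i) : ℝ))
      * ((-1 : ℝ) ^ jk.1 * p.coeff (d - jk.1)) * ((-1 : ℝ) ^ jk.2 * q.coeff (d - jk.2)) := by
  unfold conv
  rw [finsetSum_coeff, Finset.sum_eq_single i]
  · rw [coeff_C_mul, coeff_X_pow, if_pos rfl, mul_one]
  · intro k hk hki
    rw [coeff_C_mul, coeff_X_pow, if_neg, mul_zero]
    have := mem_range.1 hk
    omega
  · intro h
    exact absurd (mem_range.2 (by omega)) h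

theorem conv_c1 (d : ℕ) (p q : ℝ[X]) (hp : p.coeff (d + 1) = 1) (hq : q.coeff (d + 1) = 1) :
    (conv (d + 1) p q).coeff d = p.coeff d + q.coeff d := by
  have h := conv_coeff (d + 1) 1 (by omega) p q
  rw [show antidiagonal 1 = {((0 : ℕ), (1 : ℕ)), (1, 0)} from rfl,
    Finset.sum_insert (by decide), Finset.sum_singleton] at h
  simp only [Nat.sub_zero, Nat.add_sub_cancel, pow_zero, pow_one, one_mul, hp, hq] at h
  rw [h]
  have h1 : (Nat.factorial (d + 1) : ℝ) ≠ 0 := by positivity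
  have h2 : (Nat.factorial d : ℝ) ≠ 0 := by positivity
  field_simp
  ring

theorem conv_c2 (d : ℕ) (p q : ℝ[X]) (hp : p.coeff (d + 2) = 1) (hq : q.coeff (d + 2) = 1) :
    (conv (d + 2) p q).coeff d = p.coeff d + q.coeff d
      + ((d : ℝ) + 1) / ((d : ℝ) + 2) * (p.coeff (d + 1) * q.coeff (d + 1)) := by
  have h := conv_coeff (d + 2) 2 (by omega) p q
  rw [show antidiagonal 2 = {((0 : ℕ), (2 : ℕ)), (1, 1), (2, 0)} from rfl,
    Finset.sum_insert (by decide), Finset.sum_insert (by decide), Finset.sum_singleton] at h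
  have e1 : d + 2 - 1 = d + 1 := rfl
  simp only [Nat.sub_zero, Nat.add_sub_cancel, pow_zero, pow_one, one_mul, hp, hq, e1] at h
  rw [h]
  have h3 : (Nat.factorial (d + 2) : ℝ) = ((d : ℝ) + 2) * (((d : ℝ) + 1) * (Nat.factorial d : ℝ)) := by
    rw [Nat.factorial_succ, Nat.factorial_succ]
    push_cast
    ring
  have h4 : (Nat.factorial (d + 1) : ℝ) = ((d : ℝ) + 1) * (Nat.factorial d : ℝ) := by
    rw [Nat.factorial_succ]
    push_cast
    ring
  have h2 : (Nat.factorial d : ℝ) ≠ 0 := by positivity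
  have h5 : ((d : ℝ) + 2) ≠ 0 := by positivity
  have h6 : ((d : ℝ) + 1) ≠ 0 := by positivity
  rw [h3, h4]
  field_simp
  ring

theorem t_sums : S_sums := by
  intro d a b c h
  match d, a, b, c, h with
  | 0, a, b, c, h => simp
  | 1, a, b, c, h =>
    have h1 : (P c).coeff 0 = (conv 1 (P a) (P b)).coeff 0 := by rw [h]
    rw [cf1, conv_c1 0 (P a) (P b) (cf0 1 a) (cf0 1 b), cf1, cf1] at h1
    have h2 : ∑ i, c i = ∑ i, a i + ∑ i, b i := by linarith
    refine ⟨h2, ?_⟩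
    simp only [Fin.sum_univ_one] at h2 ⊢
    rw [h2]
    push_cast
    ring
  | n + 2, a, b, c, h =>
    have h1 : (P c).coeff (n + 1) = (conv (n + 2) (P a) (P b)).coeff (n + 1) := by rw [h]
    rw [cf1, conv_c1 (n + 1) (P a) (P b) (cf0 _ a) (cf0 _ b), cf1, cf1] at h1
    have h2 : ∑ i, c i = ∑ i, a i + ∑ i, b i := by linarith
    refine ⟨h2, ?_⟩
    have h3 : (P c).coeff n = (conv (n + 2) (P a) (P b)).coeff n := by rw [h]
    rw [cf2, conv_c2 n (P a) (P b) (cf0 _ a) (cf0 _ b), cf2, cf2, cf1, cf1, h2] at h3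
    have h5 : ((n : ℝ) + 2) ≠ 0 := by positivity
    have h6 : ∑ i, c i ^ 2 = (∑ i, a i + ∑ i, b i) ^ 2
      - 2 * (((∑ i, a i) ^ 2 - ∑ i, a i ^ 2) / 2 + ((∑ i, b i) ^ 2 - ∑ i, b i ^ 2) / 2
        + ((n : ℝ) + 1) / ((n : ℝ) + 2) * (-(∑ i, a i) * -(∑ i, b i))) := by
      linarith
    rw [h6]
    push_cast
    field_simp
    ring

end Pool.Agent.Q272.FF
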