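import Pool.Agent.Q83.FF.Stm

/-!
# Job FF-TAYLOR: second order expansion of the logarithm of the discriminant
-/

set_option autoImplicit false

namespace Pool.Agent.Q272.FF

open Polynomial Finset Filter Topology
open Pool.Agent.Q83.FF

/-- The double sum over pairs. -/
theorem pair_sum {d : ℕ} (h e : Fin d → ℝ) :
    ∑ i, ∑ j ∈ Ioi i, (e i - e j) / (h i - h j) = ∑ i, e i * J h i := by
  have h1 : ∀ i, e i * J h i = ∑ j ∈ Ioi i, e i / (h i - h j) + ∑ j ∈ Iio i, e i / (h i - h j) := by
    intro i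
    have hu : (univ.erase i : Finset (Fin d)) = Ioi i ∪ Iio i := by
      ext j
      simp only [mem_erase, mem_univ, and_true, mem_union, mem_Ioi, mem_Iio]
      rw [or_comm]
      exact lt_or_lt_iff_ne.symm
    have hd : Disjoint (Ioi i) (Iio i) := by
      rw [Finset.disjoint_left]
      intro j hj hj'
      rw [mem_Ioi] at hj
      rw [mem_Iio] at hj'
      exact lt_asymm hj hj'
    unfold J
    rw [hu, Finset.sum_union hd, mul_add, Finset.mul_sum, Finset.mul_sum]
    simp only [div_eq_mul_inv]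
  have h2 : ∑ i, ∑ j ∈ Iio i, e i / (h i - h j) = ∑ i, ∑ j ∈ Ioi i, e j / (h j - h i) := by
    refine Finset.sum_comm' (s := univ) (t := fun i => Iio i) (t' := univ) (s' := fun i => Ioi i) ?_
    intro i j
    simp [mem_Iio, mem_Ioi]
  rw [Finset.sum_congr rfl (fun i _ => h1 i), Finset.sum_add_distrib, h2,
    ← Finset.sum_add_distrib]
  refine Finset.sum_congr rfl fun i _ => ?_
  rw [← Finset.sum_add_distrib]
  refine Finset.sum_congr rfl fun j _ => ?_
  rw [sub_div, ← neg_sub (h i) (h j), div_neg]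
  ring

/-- `(log (1 + t) - t) / t ^ 2 → - 1/2`, in the form of a bound. -/
theorem log_bound (t : ℝ) (ht : |t| ≤ 1 / 2) : |Real.log (1 + t) - t + t ^ 2 / 2| ≤ 2 * |t| ^ 3 := by
  have h := Real.abs_log_sub_add_sum_range_le (x := -t) (by rw [abs_neg]; linarith) 2
  have h2 : (∑ i ∈ Finset.range 2, (-t) ^ (i + 1) / ((i : ℝ) + 1)) + Real.log (1 - -t)
      = Real.log (1 + t) - t + t ^ 2 / 2 := by
    rw [Finset.sum_range_succ, Finset.sum_range_succ, Finset.sum_range_zero]
    norm_num
    ring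
  rw [h2, abs_neg] at h
  refine h.trans ?_
  rw [div_le_iff₀ (by linarith)]
  have h4 : 0 ≤ |t| ^ 3 := by positivity
  have h5 : 0 ≤ |t| ^ 3 * (1 - 2 * |t|) := mul_nonneg h4 (by linarith)
  have h6 : |t| ^ (2 + 1) = |t| ^ 3 := rfl
  rw [h6]
  linarith

/-- The basic limit for one pair. -/
theorem pair_lim {T : Type*} (l : Filter T) (t s : T → ℝ) (tau : ℝ)
    (hs : Tendsto s l (𝓝 0)) (hs0 : ∀ᶠ x in l, 0 < s x)
    (h1 : Tendsto (fun x => t x / s x) l (𝓝 tau)) :
    Tendsto (fun x => (Real.log (1 + t x) - t x) / (s x) ^ 2) l (𝓝 (-(tau ^ 2 / 2))) := by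
  have ht0 : Tendsto t l (𝓝 0) := by
    have h2 : Tendsto (fun x => t x / s x * s x) l (𝓝 (tau * 0)) := h1.mul hs
    rw [mul_zero] at h2
    refine h2.congr' ?_
    filter_upwards [hs0] with x hx
    rw [div_mul_cancel₀ _ hx.ne']
  have hsmall : ∀ᶠ x in l, |t x| ≤ 1 / 2 := by
    have := ht0.abs
    rw [abs_zero] at this
    exact this.eventually_le_const (by norm_num)
  have h3 : Tendsto (fun x => (Real.log (1 + t x) - t x + (t x) ^ 2 / 2) / (s x) ^ 2) l (𝓝 0) := by
    have hb : Tendsto (fun x => 2 * (|t x / s x| ^ 2 * |t x|)) l (𝓝 0) := by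
      have h4 : Tendsto (fun x => 2 * (|t x / s x| ^ 2 * |t x|)) l (𝓝 (2 * (|tau| ^ 2 * |(0:ℝ)|))) :=
        ((h1.abs.pow 2).mul ht0.abs).const_mul 2
      simpa using h4
    refine squeeze_zero_norm' ?_ hb
    filter_upwards [hsmall, hs0] with x hx hx0
    rw [Real.norm_eq_abs, abs_div, abs_of_pos (by positivity : 0 < (s x) ^ 2)]
    have hlb := log_bound (t x) hx
    rw [div_le_iff₀ (by positivity), abs_div, div_pow, abs_of_pos hx0]
    have : 2 * (|t x| ^ 2 / s x ^ 2 * |t x|) * s x ^ 2 = 2 * |t x| ^ 3 := by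
      field_simp
    rw [this]
    exact hlb
  have h5 : Tendsto (fun x => (Real.log (1 + t x) - t x + (t x) ^ 2 / 2) / (s x) ^ 2
      - (t x / s x) ^ 2 / 2) l (𝓝 (0 - tau ^ 2 / 2)) := h3.sub ((h1.pow 2).div_const 2)
  rw [zero_sub] at h5
  refine h5.congr' ?_
  filter_upwards [hs0] with x hx
  field_simp
  ring

theorem log_dis {d : ℕ} (a : Fin d → ℝ) (ha : Function.Injective a) :
    Real.log (dis a) = ∑ i, ∑ j ∈ Ioi i, Real.log ((a i - a j) ^ 2) := by
  unfold dis
  have hne : ∀ i : Fin d, ∀ j ∈ Ioi i, (a i - a j) ^ 2 ≠ 0 := by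
    intro i j hj
    have : i ≠ j := (mem_Ioi.1 hj).ne
    exact pow_ne_zero _ (sub_ne_zero.2 fun h => this (ha h))
  rw [Real.log_prod (fun i _ => Finset.prod_ne_zero_iff.2 (hne i))]
  refine Finset.sum_congr rfl fun i _ => ?_
  rw [Real.log_prod (hne i)]

theorem t_taylor : S_taylor := by
  intro d m h y delta hm hinj hJ hlim hsph
  set l : Filter ℝ := 𝓝[>] (0 : ℝ) with hl
  have hpos : ∀ᶠ th : ℝ in l, 0 < th := by
    rw [hl]; exact self_mem_nhdsWithin
  have hid : Tendsto (fun th : ℝ => th) l (𝓝 0) := by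
    rw [hl]; exact tendsto_nhdsWithin_of_tendsto_nhds tendsto_id
  have hs : Tendsto (fun th : ℝ => th ^ m) l (𝓝 0) := by
    have := hid.pow m
    rwa [zero_pow (by omega)] at this
  have hs0 : ∀ᶠ th : ℝ in l, 0 < th ^ m := by
    filter_upwards [hpos] with x hx
    positivity
  have hne : ∀ i j, i ≠ j → h i - h j ≠ 0 := fun i j hij => sub_ne_zero.2 fun e => hij (hinj e)
  -- convergence of y to h
  have hy : ∀ i, Tendsto (fun th => y th i) l (𝓝 (h i)) := by
    intro i
    have h1 : Tendsto (fun th => (y th i - h i) / th ^ m * th ^ m + h i) l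
        (𝓝 (delta i * 0 + h i)) := ((hlim i).mul hs).add_const _
    rw [mul_zero, zero_add] at h1
    refine h1.congr' ?_
    filter_upwards [hs0] with x hx
    rw [div_mul_cancel₀ _ hx.ne']
    ring
  -- the quotient t_ij
  let t : Fin d → Fin d → ℝ → ℝ := fun i j th =>
    ((y th i - h i) - (y th j - h j)) / (h i - h j)
  have ht : ∀ i j, Tendsto (fun th => t i j th / th ^ m) l
      (𝓝 ((delta i - delta j) / (h i - h j))) := by
    intro i j
    have h1 : Tendsto (fun th => ((y th i - h i) / th ^ m - (y th j - h j) / th ^ m) / (h i - h j)) l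
      (𝓝 ((delta i - delta j) / (h i - h j))) := ((hlim i).sub (hlim j)).div_const _
    refine h1.congr' ?_
    filter_upwards with x
    simp only [t]
    rw [← sub_div, div_right_comm]
  have hlog : ∀ i j, i ≠ j → Tendsto (fun th => (Real.log (1 + t i j th) - t i j th) / (th ^ m) ^ 2) l
      (𝓝 (-(((delta i - delta j) / (h i - h j)) ^ 2 / 2))) := by
    intro i j _
    exact pair_lim l (t i j) (fun th => th ^ m) _ hs hs0 (ht i j)
  -- eventually injective
  have hyinj : ∀ᶠ th in l, Function.Injective (y th) := by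
    have h1 : ∀ i j, i ≠ j → ∀ᶠ th in l, y th i - y th j ≠ 0 := by
      intro i j hij
      exact ((hy i).sub (hy j)).eventually_ne (hne i j hij)
    have h2 : ∀ᶠ th in l, ∀ i j, i ≠ j → y th i - y th j ≠ 0 := by
      rw [Filter.eventually_all]
      intro i
      rw [Filter.eventually_all]
      intro j
      by_cases hij : i = j
      · filter_upwards with x h'
        exact absurd hij h'
      · filter_upwards [h1 i j hij] with x hx _
        exact hx
    filter_upwards [h2] with x hx i j hij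
    by_contra hc
    exact hx i j hc (sub_eq_zero.2 hij)
  have hts : ∀ᶠ th in l, ∀ i j, i ≠ j → 0 < 1 + t i j th := by
    rw [Filter.eventually_all]
    intro i
    rw [Filter.eventually_all]
    intro j
    have ht0 : Tendsto (t i j) l (𝓝 0) := by
      have h1 : Tendsto (fun th => t i j th / th ^ m * th ^ m) l
        (𝓝 ((delta i - delta j) / (h i - h j) * 0)) := (ht i j).mul hs
      rw [mul_zero] at h1
      refine h1.congr' ?_
      filter_upwards [hs0] with x hx
      rw [div_mul_cancel₀ _ hx.ne']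
    have h2 : Tendsto (fun th => 1 + t i j th) l (𝓝 (1 + 0)) := ht0.const_add 1
    rw [add_zero] at h2
    filter_upwards [h2.eventually_const_lt (by norm_num : (0:ℝ) < 1)] with x hx _
    exact hx
  -- main identity
  have hmain : ∀ᶠ th in l, (Real.log (dis h) - Real.log (dis (y th))) / th ^ (2 * m)
      = ((d : ℝ) - 1) / 2 * ∑ i, ((y th i - h i) / th ^ m) ^ 2
        - ∑ i, ∑ j ∈ Ioi i, 2 * ((Real.log (1 + t i j th) - t i j th) / (th ^ m) ^ 2) := by
    filter_upwards [hs0, hyinj, hts, hsph] with th hth hyi hti hsp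
    have e1 : Real.log (dis (y th)) - Real.log (dis h)
        = ∑ i, ∑ j ∈ Ioi i, 2 * Real.log (1 + t i j th) := by
      rw [log_dis _ hinj, log_dis _ hyi, ← Finset.sum_sub_distrib]
      refine Finset.sum_congr rfl fun i _ => ?_
      rw [← Finset.sum_sub_distrib]
      refine Finset.sum_congr rfl fun j hj => ?_
      have hij : i ≠ j := (mem_Ioi.1 hj).ne
      have hh := hne i j hij
      have e2 : y th i - y th j = (h i - h j) * (1 + t i j th) := by
        simp only [t]
        field_simp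
        ring
      have hp := hti i j hij
      rw [e2, mul_pow, Real.log_mul (pow_ne_zero _ hh) (pow_ne_zero _ hp.ne'),
        Real.log_pow (1 + t i j th)]
      push_cast
      ring
    have e3 : ∑ i, ∑ j ∈ Ioi i, t i j th = -(((d : ℝ) - 1) / 4 * ∑ i, (y th i - h i) ^ 2) := by
      have e4 := pair_sum h (fun i => y th i - h i)
      simp only [t]
      rw [e4]
      have e5 : ∑ i, (y th i - h i) * J h i = ((d : ℝ) - 1) / 2 * ∑ i, (y th i - h i) * h i := by
        rw [Finset.mul_sum]
        refine Finset.sum_congr rfl fun i _ => ?_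
        rw [hJ i]; ring
      have e6 : ∑ i, (y th i) ^ 2 = ∑ i, h i ^ 2 + 2 * ∑ i, (y th i - h i) * h i
          + ∑ i, (y th i - h i) ^ 2 := by
        rw [Finset.mul_sum, ← Finset.sum_add_distrib, ← Finset.sum_add_distrib]
        refine Finset.sum_congr rfl fun i _ => ?_
        ring
      rw [hsp] at e6
      rw [e5]
      have e7 : ∑ i, (y th i - h i) * h i = -(∑ i, (y th i - h i) ^ 2) / 2 := by linarith
      rw [e7]
      ring
    have e8 : ∑ i, ∑ j ∈ Ioi i, 2 * ((Real.log (1 + t i j th) - t i j th) / (th ^ m) ^ 2)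
        = (∑ i, ∑ j ∈ Ioi i, 2 * Real.log (1 + t i j th) - 2 * ∑ i, ∑ j ∈ Ioi i, t i j th)
          / (th ^ m) ^ 2 := by
      rw [sub_div, Finset.sum_div, Finset.mul_sum, Finset.sum_div, ← Finset.sum_sub_distrib]
      refine Finset.sum_congr rfl fun i _ => ?_
      rw [Finset.sum_div, Finset.mul_sum, Finset.sum_div, ← Finset.sum_sub_distrib]
      refine Finset.sum_congr rfl fun j _ => ?_
      ring
    have e9 : ∑ i, ((y th i - h i) / th ^ m) ^ 2 = (∑ i, (y th i - h i) ^ 2) / (th ^ m) ^ 2 := by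
      rw [Finset.sum_div]
      refine Finset.sum_congr rfl fun i _ => ?_
      rw [div_pow]
    rw [e8, e9, e3, ← e1, mul_comm 2 m, pow_mul]
    have hne' : (th ^ m) ^ 2 ≠ 0 := by positivity
    field_simp
    ring
  have hlimit : Tendsto (fun th => ((d : ℝ) - 1) / 2 * ∑ i, ((y th i - h i) / th ^ m) ^ 2
        - ∑ i, ∑ j ∈ Ioi i, 2 * ((Real.log (1 + t i j th) - t i j th) / (th ^ m) ^ 2)) l
      (𝓝 (((d : ℝ) - 1) / 2 * ∑ i, delta i ^ 2
        - ∑ i, ∑ j ∈ Ioi i, 2 * (-(((delta i - delta j) / (h i - h j)) ^ 2 / 2)))) := by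
    refine Tendsto.sub ?_ ?_
    · refine Tendsto.const_mul _ (tendsto_finsetSum _ fun i _ => ?_)
      exact (hlim i).pow 2
    · refine tendsto_finsetSum _ fun i _ => tendsto_finsetSum _ fun j hj => ?_
      exact (hlog i j (mem_Ioi.1 hj).ne).const_mul 2
  have heq : ((d : ℝ) - 1) / 2 * ∑ i, delta i ^ 2
        - ∑ i, ∑ j ∈ Ioi i, 2 * (-(((delta i - delta j) / (h i - h j)) ^ 2 / 2))
      = ((d : ℝ) - 1) / 2 * ∑ i, delta i ^ 2
        + ∑ i, ∑ j ∈ Ioi i, (delta i - delta j) ^ 2 / (h i - h j) ^ 2 := by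
    rw [sub_eq_add_neg, ← Finset.sum_neg_distrib]
    congr 1
    refine Finset.sum_congr rfl fun i _ => ?_
    rw [← Finset.sum_neg_distrib]
    refine Finset.sum_congr rfl fun j _ => ?_
    rw [div_pow]
    ring
  rw [heq] at hlimit
  refine hlimit.congr' ?_
  filter_upwards [hmain] with th hth
  exact hth.symm

end Pool.Agent.Q272.FF
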