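import Pool.Agent.Q83.FF.Stm

/-!
# Job FF-UNIQ: facts on root vectors
-/

set_option autoImplicit false

namespace Pool.Agent.Q272.FF

open Polynomial Finset Filter Topology
open Pool.Agent.Q83.FF

theorem roots_P {d : ℕ} (c : Fin d → ℝ) : (P c).roots = (List.ofFn c : Multiset ℝ) := by
  unfold P
  rw [← Fin.univ_val_map c]
  have : (∏ i, (X - C (c i)) : ℝ[X]) = ((univ.val.map c).map fun a => X - C a).prod := by
    rw [Multiset.map_map]
    rfl
  rw [this, roots_multiset_prod_X_sub_C]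

theorem perm_of_P {d : ℕ} {c c' : Fin d → ℝ} (h : P c = P c') :
    (List.ofFn c).Perm (List.ofFn c') := by
  have h1 : (List.ofFn c : Multiset ℝ) = (List.ofFn c' : Multiset ℝ) := by
    rw [← roots_P, ← roots_P, h]
  exact Multiset.coe_eq_coe.1 h1

theorem uniq1 {d : ℕ} (c c' : Fin d → ℝ) (hc : Monotone c) (hc' : Monotone c')
    (h : P c = P c') : c = c' :=
  List.ofFn_injective <|
    (perm_of_P h).eq_of_pairwise' hc.sortedLE_ofFn.pairwise hc'.sortedLE_ofFn.pairwise

theorem uniq2 {d : ℕ} (a : Fin d → ℝ) :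
    ∃ s : Equiv.Perm (Fin d), Monotone (a ∘ s) ∧ P (a ∘ s) = P a := by
  refine ⟨Tuple.sort a, Tuple.monotone_sort a, ?_⟩
  unfold P
  exact Equiv.prod_comp (Tuple.sort a) (fun i => X - C (a i))

theorem uniq3 {d : ℕ} (a : Fin d → ℝ) : (P a).Monic ∧ (P a).natDegree = d := by
  have hm : ∀ i ∈ (univ : Finset (Fin d)), (X - C (a i) : ℝ[X]).Monic := fun i _ =>
    monic_X_sub_C (a i)
  refine ⟨monic_prod_of_monic _ _ hm, ?_⟩
  unfold P
  rw [natDegree_prod_of_monic _ _ hm]
  simp

theorem uniq4 (d : ℕ) (p : ℝ[X]) (hp : p.Monic) (hd : p.natDegree = d)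
    (hz : ∀ z : ℂ, (p.map (algebraMap ℝ ℂ)).eval z = 0 → z.im = 0) :
    ∃ c : Fin d → ℝ, Monotone c ∧ P c = p := by
  have hm : (p.map (algebraMap ℝ ℂ)).Monic := hp.map _
  have hsp := (IsAlgClosed.splits (p.map (algebraMap ℝ ℂ))).eq_prod_roots_of_monic hm
  set R := (p.map (algebraMap ℝ ℂ)).roots with hR
  let M : Multiset ℝ := R.map Complex.re
  have hM : p = (M.map fun x => X - C x).prod := by
    apply Polynomial.map_injective (algebraMap ℝ ℂ) (algebraMap ℝ ℂ).injective
    rw [hsp, Polynomial.map_multiset_prod, Multiset.map_map, Multiset.map_map]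
    congr 1
    refine Multiset.map_congr rfl fun z hzR => ?_
    have h1 : z.im = 0 := by
      apply hz
      exact (mem_roots'.1 hzR).2
    simp only [Function.comp_apply, Polynomial.map_sub, Polynomial.map_X, Polynomial.map_C]
    congr 2
    apply Complex.ext
    · simp
    · simp [h1]
  have hcard : M.card = d := by
    have h1 : p.natDegree = M.card := by
      rw [hM, natDegree_multiset_prod_X_sub_C_eq_card]
    rw [← h1, hd]
  obtain ⟨L, hL⟩ := Quot.exists_rep M
  have hlen : L.length = d := by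
    rw [← hcard, ← hL]
    rfl
  let c0 : Fin d → ℝ := fun i => L.get (i.cast hlen.symm)
  have hof : List.ofFn c0 = L := by
    subst hlen
    exact List.ofFn_get L
  have hP : P c0 = p := by
    rw [hM, ← hL]
    unfold P
    have : (∏ i, (X - C (c0 i)) : ℝ[X]) = ((univ.val.map c0).map fun a => X - C a).prod := by
      rw [Multiset.map_map]
      rfl
    rw [this, Fin.univ_val_map, hof]
    rfl
  obtain ⟨s, hs1, hs2⟩ := uniq2 c0
  exact ⟨c0 ∘ s, hs1, hs2.trans hP⟩

theorem uniq5 (d : ℕ) (p : ℝ[X]) (c : Fin d → ℝ) (hc : Monotone c) (hP : P c = p) :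
    rt d p = c ∧ Monotone (rt d p) ∧ P (rt d p) = p := by
  have hex : ∃ c : Fin d → ℝ, Monotone c ∧ P c = p := ⟨c, hc, hP⟩
  have hrt : rt d p = hex.choose := by
    unfold rt
    rw [dif_pos hex]
  have h1 := hex.choose_spec
  rw [hrt]
  exact ⟨uniq1 _ _ h1.1 hc (h1.2.trans hP.symm), h1.1, h1.2⟩

theorem uniq6 (d : ℕ) (a b : Fin d → ℝ) (h : P a = P b) (ha : Function.Injective a) :
    Function.Injective b := by
  rw [← List.nodup_ofFn] at ha ⊢
  exact (perm_of_P h).nodup_iff.1 ha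

theorem t_uniq : S_uniq :=
  ⟨fun _ c c' hc hc' h => uniq1 c c' hc hc' h, fun _ a => uniq2 a, fun _ a => uniq3 a,
    uniq4, uniq5, uniq6⟩

end Pool.Agent.Q272.FF
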